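import Mathlib

set_option autoImplicit false

namespace Pool.Agent.P.MP_3a943a_co

/-- The unit sphere `S^m` in Euclidean space `R^(m+1)`. -/
abbrev Sph (m : ℕ) : Type := Metric.sphere (0 : EuclideanSpace ℝ (Fin (m + 1))) 1

/-- The geodesic (great-circle) distance on `S^m`. -/
noncomputable def gdist {m : ℕ} (x y : Sph m) : ℝ := Real.arccos (inner ℝ x.1 y.1)

/-- There is a graph homomorphism from the Borsuk graph `B(S^k; r)` to `B(S^n; a)`. -/
def Hom (k n : ℕ) (r a : ℝ) : Prop :=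
  ∃ f : Sph k → Sph n, ∀ x x' : Sph k, r ≤ gdist x x' → a ≤ gdist (f x) (f x')

/-- The quantity `alpha*(k, n, r)`. -/
noncomputable def alphaStar (k n : ℕ) (r : ℝ) : ℝ :=
  sSup {a : ℝ | 0 < a ∧ a ≤ Real.pi ∧ Hom k n r a}

end Pool.Agent.P.MP_3a943a_co
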