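import Mathlib
import Pool.Agent.P.MP_4d0e60_an.BU
import Pool.Agent.P.MP_3a943a_co.Defs

set_option autoImplicit false

namespace Pool.Agent.P.MP_3a943a_co

open Finset Pool.Agent.P.MP_4d0e60_an

lemma zmod2_cases (a : ZMod 2) : a = 0 ∨ a = 1 := by
  revert a; decide

lemma z10 : ¬ ((1 : ZMod 2) = 0) := by decide

lemma z01 : ¬ ((0 : ZMod 2) = 1) := by decide

lemma z011 : (0 : ZMod 2) - 1 = 1 := by decide

lemma sum_zmod2 (f : ZMod 2 → ℝ) : ∑ a, f a = f 0 + f 1 := Fin.sum_univ_two f

/-- The Borsuk-Ulam theorem: an odd continuous map from `S^k` to `R^(m+1)` without zeros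
forces `k ≤ m`. -/
theorem bu_fin {k m : ℕ} (h : Sph k → Fin (m + 1) → ℝ) (hc : Continuous h)
    (ho : ∀ x, h (-x) = -h x) (hz : ∀ x, h x ≠ 0) : k ≤ m := by
  classical
  have : Fact (Nat.Prime 2) := ⟨Nat.prime_two⟩
  apply BU (p := 2)
  let u : (Fin (k + 1) → ZMod 2 → ℝ) → EuclideanSpace ℝ (Fin (k + 1)) :=
    fun w => WithLp.toLp 2 (fun j => w j 0 - w j 1)
  have huc : Continuous u := by
    apply (PiLp.continuous_toLp 2 _).comp
    fun_prop
  have hu0 : ∀ w ∈ EJoin 2 k, u w ≠ 0 := by
    intro w hw h0
    have h1 : ∀ j, w j 0 = w j 1 := by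
      intro j
      have := congrArg (fun v : EuclideanSpace ℝ (Fin (k + 1)) => v j) h0
      simpa [u, sub_eq_zero] using this
    have h2 : ∀ j a, w j a = 0 := by
      intro j a
      by_contra hne
      have h00 : w j 0 ≠ 0 := by
        rcases zmod2_cases a with rfl | rfl
        · exact hne
        · rw [h1]; exact hne
      have h01 : w j 1 ≠ 0 := by rw [← h1]; exact h00
      exact absurd (hw.2.2 j 0 1 h00 h01) z01
    have := hw.2.1
    simp [h2] at this
  have hurot : ∀ w, u (rot 2 k w) = -u w := by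
    intro w
    ext j
    have e1 := z011
    simp [u, rot, e1]
  let s : EJoin 2 k → Sph k := fun w => ⟨(‖u w.1‖⁻¹) • u w.1, by
    have := hu0 w.1 w.2
    simp [norm_smul, this]⟩
  have hsc : Continuous s := by
    apply Continuous.subtype_mk
    apply Continuous.fun_smul
    · apply Continuous.inv₀
      · exact (huc.comp continuous_subtype_val).norm
      · intro w; simpa using hu0 w.1 w.2
    · exact huc.comp continuous_subtype_val
  let N : (Fin (m + 1) → ℝ) → ℝ := fun v => ∑ j, |v j|
  have hN : ∀ v : Fin (m + 1) → ℝ, v ≠ 0 → 0 < N v := by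
    intro v hv
    obtain ⟨j, hj⟩ := Function.ne_iff.mp hv
    exact sum_pos' (fun j _ => abs_nonneg _) ⟨j, mem_univ _, abs_pos.mpr hj⟩
  let t : (Fin (m + 1) → ℝ) → Fin (m + 1) → ZMod 2 → ℝ :=
    fun v j a => max (if a = 0 then v j else -v j) 0 / N v
  refine ⟨fun w => if hw : w ∈ EJoin 2 k then t (h (s ⟨w, hw⟩)) else 0, ?_, ?_, ?_⟩
  · rw [continuousOn_iff_continuous_domRestrict]
    have : (EJoin 2 k).domRestrict (fun w => if hw : w ∈ EJoin 2 k then t (h (s ⟨w, hw⟩)) else 0) =
        fun w => t (h (s w)) := by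
      funext w; simp [Set.domRestrict, w.2]
    rw [this]
    have hhs : Continuous fun w => h (s w) := hc.comp hsc
    refine continuous_pi fun j => continuous_pi fun a => ?_
    apply Continuous.div
    · apply Continuous.max _ continuous_const
      split_ifs
      · exact (continuous_apply j).comp hhs
      · exact ((continuous_apply j).comp hhs).neg
    · exact continuous_finsetSum _ fun j _ => ((continuous_apply j).comp hhs).abs
    · intro w; exact (hN _ (hz _)).ne'
  · intro w hw
    simp only [hw, dif_pos]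
    set v := h (s ⟨w, hw⟩)
    have hv := hN v (hz _)
    refine ⟨fun j a => div_nonneg (le_max_right _ _) hv.le, ?_, fun j a b ha hb => ?_⟩
    · simp only [t, sum_zmod2, ← add_div]
      rw [← sum_div]
      rw [div_eq_one_iff_eq hv.ne']
      refine sum_congr rfl fun j _ => ?_
      have := z10
      simp only [if_true, this, if_false]
      rcases le_total 0 (v j) with h1 | h1
      · rw [max_eq_left h1, max_eq_right (by linarith), abs_of_nonneg h1, add_zero]
      · rw [max_eq_right h1, max_eq_left (by linarith), abs_of_nonpos h1, zero_add]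
    · have h10 := z10
      simp only [t, ne_eq, div_eq_zero_iff, hv.ne', or_false, max_eq_right_iff, not_le] at ha hb
      rcases zmod2_cases a with rfl | rfl <;> rcases zmod2_cases b with rfl | rfl
      · rfl
      · simp only [if_true, h10, if_false] at ha hb; linarith
      · simp only [if_true, h10, if_false] at ha hb; linarith
      · rfl
  · intro w hw
    have hw' := rot_mem hw
    simp only [hw, hw', dif_pos]
    have e : s ⟨rot 2 k w, hw'⟩ = -s ⟨w, hw⟩ := by
      apply Subtype.ext
      simp [s, hurot]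
    rw [e, ho]
    funext j a
    have hN' : N (-h (s ⟨w, hw⟩)) = N (h (s ⟨w, hw⟩)) := by simp [N]
    simp only [t, rot, hN', Pi.neg_apply, neg_neg]
    rcases zmod2_cases a with rfl | rfl
    · simp [z011, z10]
    · have h10 := z10
      simp [h10]

/-- Borsuk-Ulam with an arbitrary finite index set. -/
theorem bu_odd {k : ℕ} {κ : Type} [Fintype κ] (h : Sph k → κ → ℝ) (hc : Continuous h)
    (ho : ∀ x, h (-x) = -h x) (hz : ∀ x, h x ≠ 0) : k < Fintype.card κ := by
  classical
  rcases hκ : Fintype.card κ with _ | m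
  · exfalso
    have : IsEmpty κ := Fintype.card_eq_zero_iff.mp hκ
    have : Nonempty (Sph k) := (NormedSpace.sphere_nonempty.mpr zero_le_one).to_subtype
    obtain ⟨x⟩ := this
    exact hz x (Subsingleton.elim _ _)
  · let e : κ ≃ Fin (m + 1) := Fintype.equivFinOfCardEq hκ
    have := bu_fin (fun x j => h x (e.symm j)) (by fun_prop) (fun x => by funext j; simp [ho])
      (fun x h0 => hz x (by
        funext c
        have := congrFun h0 (e c)
        simpa using this))
    omega

/-- A finite partition of unity on the sphere whose active centres at `x` and at `-x` are at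
geodesic distance at least `r`. -/
theorem exists_weights (k : ℕ) {r : ℝ} (hr : r < Real.pi) :
    ∃ (ι : Type) (_ : Fintype ι) (c : ι → Sph k) (w : Sph k → ι → ℝ), Continuous w ∧
      (∀ x i, 0 ≤ w x i) ∧ (∀ x, ∑ i, w x i = 1) ∧
      ∀ x i j, w x i ≠ 0 → w (-x) j ≠ 0 → r ≤ gdist (c i) (c j) := by
  classical
  obtain ⟨δ, hδ, hδr⟩ : ∃ δ : ℝ, 0 < δ ∧ ∀ t : ℝ, t < 2 * δ ^ 2 - 1 → r ≤ Real.arccos t := by
    rcases le_or_gt r 0 with h0 | h0
    · exact ⟨1, one_pos, fun t _ => h0.trans (Real.arccos_nonneg t)⟩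
    · have h1 : -1 < Real.cos r := by
        rw [← Real.cos_pi]
        exact Real.cos_lt_cos_of_nonneg_of_le_pi h0.le le_rfl hr
      refine ⟨√((1 + Real.cos r) / 2), Real.sqrt_pos.mpr (by linarith), fun t ht => ?_⟩
      rw [Real.sq_sqrt (by linarith)] at ht
      rw [← Real.arccos_cos h0.le hr.le]
      exact Real.antitone_arccos (by linarith)
  obtain ⟨T, -, hTf, hT⟩ := finite_cover_balls_of_compact (isCompact_univ (X := Sph k)) hδ
  let φ : Sph k → hTf.toFinset → ℝ := fun x i => max (δ - dist x i.1) 0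
  have hφc : Continuous φ := by
    refine continuous_pi fun i => ?_
    simp only [φ]; fun_prop
  have hφ0 : ∀ x i, 0 ≤ φ x i := fun x i => le_max_right _ _
  have hS : ∀ x, 0 < ∑ i, φ x i := by
    intro x
    have := hT (Set.mem_univ x)
    simp only [Set.mem_iUnion, Metric.mem_ball] at this
    obtain ⟨y, hy, hxy⟩ := this
    refine sum_pos' (fun i _ => hφ0 x i) ⟨⟨y, by simpa using hy⟩, mem_univ _, ?_⟩
    exact lt_max_of_lt_left (by simpa using hxy)
  refine ⟨hTf.toFinset, inferInstance, fun i => i.1, fun x i => φ x i / ∑ j, φ x j, ?_,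
    fun x i => div_nonneg (hφ0 x i) (hS x).le, fun x => ?_, fun x i j hi hj => ?_⟩
  · refine continuous_pi fun i => Continuous.div ((continuous_apply i).comp hφc) ?_
      (fun x => (hS x).ne')
    exact continuous_finsetSum _ fun j _ => (continuous_apply j).comp hφc
  · rw [← sum_div, div_self (hS x).ne']
  · have hi' : dist x i.1 < δ := by
      by_contra hcon
      apply hi
      simp only [φ]
      rw [max_eq_right (by linarith), zero_div]
    have hj' : dist (-x) j.1 < δ := by
      by_contra hcon
      apply hj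
      simp only [φ]
      rw [max_eq_right (by linarith), zero_div]
    apply hδr
    rw [Subtype.dist_eq, dist_eq_norm] at hi' hj'
    have h1 : ‖i.1.1 + j.1.1‖ < 2 * δ := by
      have : i.1.1 + j.1.1 = -(x.1 - i.1.1) - ((-x).1 - j.1.1) := by
        simp only [coe_neg_sphere]; abel
      rw [this]
      refine (norm_sub_le _ _).trans_lt ?_
      rw [norm_neg]; linarith
    have h2 := norm_add_sq_real i.1.1 j.1.1
    have hi1 : ‖i.1.1‖ = 1 := by simp
    have hj1 : ‖j.1.1‖ = 1 := by simp
    rw [hi1, hj1] at h2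
    have h3 : ‖i.1.1 + j.1.1‖ ^ 2 < (2 * δ) ^ 2 := by
      gcongr
    nlinarith

end Pool.Agent.P.MP_3a943a_co
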