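import Mathlib
import Pool.Agent.P.MP_3a943a_co.Odd

set_option autoImplicit false

namespace Pool.Agent.P.MP_3a943a_co

open Finset

variable {k n : ℕ} {ι : Type} [Fintype ι]

lemma exists_balanced (w : Sph k → ι → ℝ) (hc : Continuous w) {κ : Type} [Fintype κ]
    (hκ : Fintype.card κ ≤ k) (ψ : ι → κ → ℝ) :
    ∃ x, ∀ c, ∑ i, w x i * ψ i c = ∑ i, w (-x) i * ψ i c := by
  by_contra hcon
  push Not at hcon
  have := bu_odd (fun x c => ∑ i, w x i * ψ i c - ∑ i, w (-x) i * ψ i c) (by fun_prop)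
    (fun x => by funext c; simp) (fun x h0 => by
      obtain ⟨c, hc⟩ := hcon x
      exact hc (sub_eq_zero.mp (congrFun h0 c)))
  omega

lemma inner_eq_sum (u v : EuclideanSpace ℝ (Fin (n + 1))) : inner ℝ u v = ∑ a, u a * v a := by
  simp [PiLp.inner_apply, mul_comm]

omit [Fintype ι] in
lemma double_sum_le (p q : ι → ℝ) (hp : ∀ i, 0 ≤ p i) (hq : ∀ i, 0 ≤ q i)
    (F : ι → ι → ℝ) (hF : ∀ i j, p i ≠ 0 → q j ≠ 0 → F i j ≤ 0) (i j : ι) :
    p i * q j * F i j ≤ 0 := by
  by_cases hi : p i = 0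
  · simp [hi]
  by_cases hj : q j = 0
  · simp [hj]
  exact mul_nonpos_of_nonneg_of_nonpos (mul_nonneg (hp i) (hq j)) (hF i j hi hj)

lemma swap_moment {κ : Type} [Fintype κ] (p q : ι → ℝ) (A : ι → κ → ℝ) :
    ∑ i, ∑ j, p i * q j * ∑ c, A i c * A j c =
      ∑ c, (∑ i, p i * A i c) * (∑ j, q j * A j c) := by
  simp only [mul_sum, sum_mul]
  rw [sum_comm (s := (univ : Finset κ))]
  rw [sum_comm]
  refine sum_congr rfl fun i _ => ?_
  rw [sum_comm (s := (univ : Finset κ))]
  exact sum_congr rfl fun j _ => sum_congr rfl fun a _ => by ring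

lemma lin_moment (p q : ι → ℝ) (y : ι → EuclideanSpace ℝ (Fin (n + 1))) :
    ∑ i, ∑ j, p i * q j * inner ℝ (y i) (y j) =
      ∑ a, (∑ i, p i * y i a) * (∑ j, q j * y j a) := by
  simp only [inner_eq_sum]
  exact swap_moment p q (fun i a => y i a)

lemma quad_moment (p q : ι → ℝ) (y : ι → EuclideanSpace ℝ (Fin (n + 1))) :
    ∑ i, ∑ j, p i * q j * (inner ℝ (y i) (y j)) ^ 2 =
      ∑ c : Fin (n + 1) × Fin (n + 1),
        (∑ i, p i * (y i c.1 * y i c.2)) * (∑ j, q j * (y j c.1 * y j c.2)) := by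
  rw [← swap_moment p q (fun i (c : Fin (n + 1) × Fin (n + 1)) => y i c.1 * y i c.2)]
  refine sum_congr rfl fun i _ => sum_congr rfl fun j _ => ?_
  congr 1
  rw [inner_eq_sum, sq, sum_mul_sum, Fintype.sum_prod_type]
  exact sum_congr rfl fun a _ => sum_congr rfl fun b _ => by ring

lemma sph_sum_sq (y : Sph n) : ∑ a, y.1 a * y.1 a = 1 := by
  rw [← inner_eq_sum, real_inner_self_eq_norm_sq]
  simp

lemma sph_inner_ge (y z : Sph n) : -1 ≤ inner ℝ y.1 z.1 := by
  have := neg_le_of_abs_le (abs_real_inner_le_norm y.1 z.1)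
  simpa using this

lemma sph_inner_le (y z : Sph n) : inner ℝ y.1 z.1 ≤ 1 := by
  have := real_inner_le_norm y.1 z.1
  simpa using this

section
variable (w : Sph k → ι → ℝ) (hc : Continuous w) (h0 : ∀ x i, 0 ≤ w x i)
  (h1 : ∀ x, ∑ i, w x i = 1) (y : ι → Sph n) (s : ℝ)
  (hs : ∀ x i j, w x i ≠ 0 → w (-x) j ≠ 0 → inner ℝ (y i).1 (y j).1 ≤ s)
include hc h0 h1 hs

lemma upper_one (hk : n < k) : 0 ≤ s := by
  obtain ⟨x, hx⟩ := exists_balanced w hc (κ := Fin (n + 1)) (by simpa using hk)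
    (fun i a => (y i).1 a)
  have A : ∑ i, ∑ j, w x i * w (-x) j * (inner ℝ (y i).1 (y j).1 - s) ≤ 0 :=
    sum_nonpos fun i _ => sum_nonpos fun j _ =>
      double_sum_le _ _ (h0 x) (h0 (-x)) (fun i j => inner ℝ (y i).1 (y j).1 - s)
        (fun i j hi hj => sub_nonpos.mpr (hs x i j hi hj)) i j
  simp only [mul_sub, sum_sub_distrib, ← sum_mul, ← mul_sum, h1] at A
  rw [lin_moment (w x) (w (-x)) (fun i => (y i).1)] at A
  simp only [← hx] at A
  have B : 0 ≤ ∑ a, (∑ i, w x i * (y i).1 a) * (∑ i, w x i * (y i).1 a) :=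
    sum_nonneg fun a _ => mul_self_nonneg _
  linarith

end

/-- The index set of the monomials of degree one and two, with one square left out. -/
abbrev Idx (n : ℕ) : Type := Fin (n + 1) ⊕ {z : Sym2 (Fin (n + 1)) // z ≠ s(0, 0)}

lemma card_Idx (n : ℕ) : 2 * Fintype.card (Idx n) = n * (n + 5) + 2 := by
  classical
  have h1 : Fintype.card {z : Sym2 (Fin (n + 1)) // z ≠ s(0, 0)} =
      Fintype.card (Sym2 (Fin (n + 1))) - 1 := by
    rw [Fintype.card_subtype_compl (fun z : Sym2 (Fin (n + 1)) => z = s(0, 0))]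
    simp
  have h2 : 2 * Fintype.card (Sym2 (Fin (n + 1))) = (n + 2) * (n + 1) := by
    rw [Sym2.card, Fintype.card_fin, Nat.choose_two_right]
    have : 2 ∣ (n + 1 + 1) * (n + 1 + 1 - 1) := by
      simpa [mul_comm] using (Nat.even_mul_succ_self (n + 1)).two_dvd
    rw [Nat.mul_div_cancel' this]
    simp
  have h3 : 1 ≤ Fintype.card (Sym2 (Fin (n + 1))) := by nlinarith
  rw [Fintype.card_sum, Fintype.card_fin, h1]
  obtain ⟨m, hm⟩ := Nat.exists_eq_add_of_le h3
  rw [hm] at h2 ⊢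
  simp only [Nat.add_sub_cancel_left]
  nlinarith

/-- The product of two coordinates. -/
noncomputable def mono2 (v : EuclideanSpace ℝ (Fin (n + 1))) : Sym2 (Fin (n + 1)) → ℝ :=
  Sym2.lift ⟨fun a b => v a * v b, fun _ _ => mul_comm _ _⟩

/-- The monomial indexed by an element of `Idx n`. -/
noncomputable def feat (v : EuclideanSpace ℝ (Fin (n + 1))) : Idx n → ℝ :=
  Sum.elim (fun a => v a) (fun z => mono2 v z.1)

section
variable (w : Sph k → ι → ℝ) (hc : Continuous w) (h0 : ∀ x i, 0 ≤ w x i)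
  (h1 : ∀ x, ∑ i, w x i = 1) (y : ι → Sph n) (s : ℝ)
  (hs : ∀ x i j, w x i ≠ 0 → w (-x) j ≠ 0 → inner ℝ (y i).1 (y j).1 ≤ s)
include hc h0 h1 hs

lemma upper_two (hk : n * (n + 5) < 2 * k) (hs1 : s ≤ 1) : 1 / ((n : ℝ) + 1) ≤ s := by
  classical
  have hcard := card_Idx n
  have hev : 2 ∣ n * (n + 5) := by
    have := (Nat.even_mul_succ_self n).two_dvd
    have e : n * (n + 5) = n * (n + 1) + 2 * (2 * n) := by ring
    rw [e]; exact dvd_add this (dvd_mul_right _ _)
  obtain ⟨x, hx⟩ := exists_balanced w hc (κ := Idx n) (by omega) (fun i => feat (y i).1)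
  have hx1 : ∀ a, ∑ i, w x i * (y i).1 a = ∑ i, w (-x) i * (y i).1 a := fun a => hx (Sum.inl a)
  have htr : ∀ x, ∑ a, ∑ i, w x i * ((y i).1 a * (y i).1 a) = 1 := by
    intro x
    rw [sum_comm]
    simp only [← mul_sum, sph_sum_sq, mul_one, h1]
  have hx2' : ∀ a b : Fin (n + 1), s(a, b) ≠ s(0, 0) → ∑ i, w x i * ((y i).1 a * (y i).1 b) =
      ∑ i, w (-x) i * ((y i).1 a * (y i).1 b) := fun a b h => hx (Sum.inr ⟨s(a, b), h⟩)
  have hx2 : ∀ a b : Fin (n + 1), ∑ i, w x i * ((y i).1 a * (y i).1 b) =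
      ∑ i, w (-x) i * ((y i).1 a * (y i).1 b) := by
    intro a b
    by_cases h : s(a, b) = s(0, 0)
    · have ha : a = 0 := by simp at h; exact h.1
      have hb : b = 0 := by simp at h; exact h.2
      subst ha hb
      have e1 := htr x
      have e2 := htr (-x)
      rw [Fin.sum_univ_succ] at e1 e2
      have e3 : ∑ a : Fin n, ∑ i, w x i * ((y i).1 a.succ * (y i).1 a.succ) =
          ∑ a : Fin n, ∑ i, w (-x) i * ((y i).1 a.succ * (y i).1 a.succ) :=
        sum_congr rfl fun a _ => hx2' _ _ (by simp)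
      linarith
    · exact hx2' a b h
  have A : ∑ i, ∑ j, w x i * w (-x) j * ((inner ℝ (y i).1 (y j).1) ^ 2 +
      (1 - s) * inner ℝ (y i).1 (y j).1 - s) ≤ 0 :=
    sum_nonpos fun i _ => sum_nonpos fun j _ =>
      double_sum_le _ _ (h0 x) (h0 (-x)) (fun i j => (inner ℝ (y i).1 (y j).1) ^ 2 +
        (1 - s) * inner ℝ (y i).1 (y j).1 - s) (fun i j hi hj => by
          have a1 := hs x i j hi hj
          have a2 := sph_inner_ge (y i) (y j)
          nlinarith) i j
  have A' : ∑ i, ∑ j, w x i * w (-x) j * ((inner ℝ (y i).1 (y j).1) ^ 2 +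
      (1 - s) * inner ℝ (y i).1 (y j).1 - s) =
      ∑ i, ∑ j, w x i * w (-x) j * (inner ℝ (y i).1 (y j).1) ^ 2 +
      (1 - s) * ∑ i, ∑ j, w x i * w (-x) j * inner ℝ (y i).1 (y j).1 -
      (∑ i, w x i) * (∑ j, w (-x) j) * s := by
    rw [sum_mul_sum]
    simp only [mul_sum, sum_mul, ← sum_add_distrib, ← sum_sub_distrib]
    exact sum_congr rfl fun i _ => sum_congr rfl fun j _ => by ring
  rw [A', lin_moment (w x) (w (-x)) (fun i => (y i).1), quad_moment (w x) (w (-x))
    (fun i => (y i).1), h1, h1] at A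
  simp only [← hx1, ← hx2] at A
  have B : 0 ≤ ∑ a, (∑ i, w x i * (y i).1 a) * (∑ i, w x i * (y i).1 a) :=
    sum_nonneg fun a _ => mul_self_nonneg _
  set M : Fin (n + 1) → Fin (n + 1) → ℝ := fun a b => ∑ i, w x i * ((y i).1 a * (y i).1 b) with hM
  have C : ∑ a, M a a ^ 2 ≤ ∑ c : Fin (n + 1) × Fin (n + 1), M c.1 c.2 * M c.1 c.2 := by
    rw [Fintype.sum_prod_type]
    refine sum_le_sum fun a _ => ?_
    rw [sq]
    exact single_le_sum (f := fun b => M a b * M a b) (fun b _ => mul_self_nonneg _) (mem_univ a)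
  have D : (∑ a, M a a) ^ 2 ≤ ((n : ℝ) + 1) * ∑ a, M a a ^ 2 := by
    have := sq_sum_le_card_mul_sum_sq (s := (univ : Finset (Fin (n + 1)))) (f := fun a => M a a)
    simpa using this
  have E : ∑ a, M a a = 1 := htr x
  rw [E] at D
  rw [div_le_iff₀ (by positivity)]
  have F : ∑ a, M a a ^ 2 ≤ s := by
    have : 0 ≤ (1 - s) * ∑ a, (∑ i, w x i * (y i).1 a) * (∑ i, w x i * (y i).1 a) :=
      mul_nonneg (by linarith) B
    simp only [hM] at C ⊢
    linarith
  have hn : (0 : ℝ) ≤ (n : ℝ) + 1 := by positivity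
  nlinarith

end

/-- An antisymmetric sign that is nonzero on distinct arguments. -/
lemma exists_sgn (α : Type) : ∃ g : α → α → ℝ, (∀ a b, g b a = -g a b) ∧
    ∀ a b, a ≠ b → g a b ≠ 0 := by
  classical
  let _ : LinearOrder α := linearOrderOfSTO WellOrderingRel
  refine ⟨fun a b => if a < b then 1 else if b < a then -1 else 0, fun a b => ?_, fun a b h => ?_⟩
  · rcases lt_trichotomy a b with h | h | h
    · simp [h, h.not_gt]
    · simp [h]
    · simp [h, h.not_gt]
  · rcases lt_or_gt_of_ne h with h | h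
    · simp [h]
    · simp [h, h.not_gt]

section
variable (w : Sph k → ι → ℝ) (hc : Continuous w) (h0 : ∀ x i, 0 ≤ w x i)
  (h1 : ∀ x, ∑ i, w x i = 1) (y : ι → Sph n)
  (hs : ∀ x i j, w x i ≠ 0 → w (-x) j ≠ 0 → inner ℝ (y i).1 (y j).1 ≤ 0)
include hc h0 h1 hs

lemma upper_three : k ≤ 2 * n := by
  classical
  obtain ⟨g, hg1, hg2⟩ := exists_sgn (Submodule ℝ (EuclideanSpace ℝ (Fin (n + 1))))
  let U : Finset ι → Submodule ℝ (EuclideanSpace ℝ (Fin (n + 1))) :=
    fun A => Submodule.span ℝ ((fun i => (y i).1) '' (A : Set ι))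
  let e : Finset ι → Finset ι → Fin n → ℝ := fun A B t =>
    if Module.finrank ℝ (U A) + Module.finrank ℝ (U B) = t + 2 then g (U A) (U B) else 0
  have he : ∀ A B t, e B A t = -e A B t := by
    intro A B t
    simp only [e, add_comm (Module.finrank ℝ (U B))]
    split_ifs
    · exact hg1 _ _
    · simp
  let h : Sph k → (Fin (n + 1) ⊕ Fin n) → ℝ := fun x =>
    Sum.elim (fun a => ∑ i, w x i * (y i).1 a - ∑ i, w (-x) i * (y i).1 a)
      (fun t => ∑ A : Finset ι, ∑ B : Finset ι,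
        (∏ i ∈ A, w x i) * (∏ j ∈ B, w (-x) j) * e A B t)
  have key := bu_odd h ?_ ?_ ?_
  · simp at key; omega
  · refine continuous_pi fun c => ?_
    rcases c with a | t
    · simp only [h, Sum.elim_inl]; fun_prop
    · simp only [h, Sum.elim_inr]; fun_prop
  · intro x
    funext c
    rcases c with a | t
    · simp [h]
    · simp only [h, Sum.elim_inr, Pi.neg_apply, neg_neg]
      rw [sum_comm, ← sum_neg_distrib]
      refine sum_congr rfl fun A _ => ?_
      rw [← sum_neg_distrib]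
      refine sum_congr rfl fun B _ => ?_
      rw [he A B]; ring
  · intro x hx
    have hx1 : ∀ a, ∑ i, w x i * (y i).1 a = ∑ i, w (-x) i * (y i).1 a :=
      fun a => sub_eq_zero.mp (congrFun hx (Sum.inl a))
    have hle := double_sum_le _ _ (h0 x) (h0 (-x)) (fun i j => inner ℝ (y i).1 (y j).1) (hs x)
    have hsum : ∑ i, ∑ j, w x i * w (-x) j * inner ℝ (y i).1 (y j).1 = 0 := by
      refine le_antisymm (sum_nonpos fun i _ => sum_nonpos fun j _ => hle i j) ?_
      rw [lin_moment (w x) (w (-x)) (fun i => (y i).1)]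
      simp only [← hx1]
      exact sum_nonneg fun a _ => mul_self_nonneg _
    have horth : ∀ i j, w x i ≠ 0 → w (-x) j ≠ 0 → inner ℝ (y i).1 (y j).1 = 0 := by
      intro i j hi hj
      have a1 := (sum_eq_zero_iff_of_nonpos (fun i _ => sum_nonpos fun j _ => hle i j)).mp hsum i
        (mem_univ _)
      have a2 := (sum_eq_zero_iff_of_nonpos (fun j _ => hle i j)).mp a1 j (mem_univ _)
      simpa [hi, hj] using a2
    let A0 : Finset ι := univ.filter fun i => w x i ≠ 0
    let B0 : Finset ι := univ.filter fun j => w (-x) j ≠ 0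
    have hne : ∀ z : Sph k, ∃ i, w z i ≠ 0 := by
      intro z
      by_contra hcon
      push Not at hcon
      have := h1 z
      simp [hcon] at this
    have hUpos : ∀ A : Finset ι, A.Nonempty → U A ≠ ⊥ := by
      rintro A ⟨i, hi⟩ hb
      have : (y i).1 ∈ U A := Submodule.subset_span ⟨i, hi, rfl⟩
      rw [hb, Submodule.mem_bot] at this
      have h2 : ‖(y i).1‖ = 1 := by simp
      rw [this] at h2
      simp at h2
    have hA0 : U A0 ≠ ⊥ := hUpos _ (by
      obtain ⟨i, hi⟩ := hne x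
      exact ⟨i, by simp [A0, hi]⟩)
    have hB0 : U B0 ≠ ⊥ := hUpos _ (by
      obtain ⟨i, hi⟩ := hne (-x)
      exact ⟨i, by simp [B0, hi]⟩)
    have hO : U A0 ⟂ U B0 := by
      rw [Submodule.isOrtho_span]
      rintro _ ⟨i, hi, rfl⟩ _ ⟨j, hj, rfl⟩
      exact horth i j (by simpa [A0] using hi) (by simpa [B0] using hj)
    have hrk : Module.finrank ℝ (U A0) + Module.finrank ℝ (U B0) ≤ n + 1 := by
      have a1 := Submodule.finrank_mono hO.le
      have a2 := Submodule.finrank_add_finrank_orthogonal (U B0)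
      simp only [finrank_euclideanSpace, Fintype.card_fin] at a2
      omega
    have hr1 : 1 ≤ Module.finrank ℝ (U A0) := by
      rw [Nat.one_le_iff_ne_zero]; simpa using hA0
    have hr2 : 1 ≤ Module.finrank ℝ (U B0) := by
      rw [Nat.one_le_iff_ne_zero]; simpa using hB0
    have hAB : U A0 ≠ U B0 := by
      intro hAB
      rw [hAB] at hO
      exact hB0 (Submodule.isOrtho_self.mp hO)
    let t0 : Fin n := ⟨Module.finrank ℝ (U A0) + Module.finrank ℝ (U B0) - 2, by omega⟩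
    have ht0 : (t0 : ℕ) + 2 = Module.finrank ℝ (U A0) + Module.finrank ℝ (U B0) := by
      simp only [t0]; omega
    have hz : ∑ A : Finset ι, ∑ B : Finset ι,
        (∏ i ∈ A, w x i) * (∏ j ∈ B, w (-x) j) * e A B t0 = 0 := congrFun hx (Sum.inr t0)
    have hterm : ∀ A B : Finset ι,
        0 ≤ (∏ i ∈ A, w x i) * (∏ j ∈ B, w (-x) j) * e A B t0 * g (U A0) (U B0) := by
      intro A B
      by_cases hA : A ⊆ A0
      swap
      · obtain ⟨i, hi, hi'⟩ := not_subset.mp hA
        have : w x i = 0 := by simpa [A0] using hi'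
        rw [prod_eq_zero hi this]; simp
      by_cases hB : B ⊆ B0
      swap
      · obtain ⟨i, hi, hi'⟩ := not_subset.mp hB
        have : w (-x) i = 0 := by simpa [B0] using hi'
        rw [prod_eq_zero hi this]; simp
      have hUA : U A ≤ U A0 := Submodule.span_mono (Set.image_mono (by exact_mod_cast hA))
      have hUB : U B ≤ U B0 := Submodule.span_mono (Set.image_mono (by exact_mod_cast hB))
      have r1 := Submodule.finrank_mono hUA
      have r2 := Submodule.finrank_mono hUB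
      simp only [e]
      split_ifs with hc
      · have e1 : U A = U A0 := Submodule.eq_of_le_of_finrank_eq hUA (by omega)
        have e2 : U B = U B0 := Submodule.eq_of_le_of_finrank_eq hUB (by omega)
        rw [e1, e2, mul_assoc]
        exact mul_nonneg (mul_nonneg (prod_nonneg fun i _ => h0 _ _) (prod_nonneg fun i _ => h0 _ _))
          (mul_self_nonneg _)
      · simp
    have hz' : ∑ A : Finset ι, ∑ B : Finset ι,
        (∏ i ∈ A, w x i) * (∏ j ∈ B, w (-x) j) * e A B t0 * g (U A0) (U B0) = 0 := by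
      simp only [← sum_mul, hz, zero_mul]
    have a1 := (sum_eq_zero_iff_of_nonneg (fun A _ => sum_nonneg fun B _ => hterm A B)).mp hz' A0
      (mem_univ _)
    have a2 := (sum_eq_zero_iff_of_nonneg (fun B _ => hterm A0 B)).mp a1 B0 (mem_univ _)
    have p1 : ∏ i ∈ A0, w x i ≠ 0 := prod_ne_zero_iff.mpr fun i hi => by simpa [A0] using hi
    have p2 : ∏ i ∈ B0, w (-x) i ≠ 0 := prod_ne_zero_iff.mpr fun i hi => by simpa [B0] using hi
    have p3 := hg2 _ _ hAB
    simp [e, ht0, p1, p2, p3] at a2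

end

end Pool.Agent.P.MP_3a943a_co
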