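import Mathlib
import Pool.Agent.P.MP_3a943a_co.Upper

set_option autoImplicit false

namespace Pool.Agent.P.MP_3a943a_co

open Finset

variable {k n : ℕ}

lemma lower_general {Y : Type} [TopologicalSpace Y] [CompactSpace Y] [Nonempty Y]
    (c : Y → Sph n) (hc : Continuous c) (ψ : Y → EuclideanSpace ℝ (Fin (k + 1)))
    (hψ : Continuous ψ)
    (H : ∀ (x : Sph k) (y y' : Y), (∀ z, inner ℝ x.1 (ψ z) ≤ inner ℝ x.1 (ψ y)) →
      (∀ z, inner ℝ x.1 (ψ y') ≤ inner ℝ x.1 (ψ z)) → inner ℝ (c y).1 (c y').1 ≤ 0)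
    {ε : ℝ} (hε : 0 < ε) :
    ∃ r, 0 < r ∧ r < Real.pi ∧ ∃ F : Sph k → Y, ∀ x x', r ≤ gdist x x' →
      inner ℝ (c (F x)).1 (c (F x')).1 < ε := by
  have hmax : ∀ x : Sph k, ∃ y, ∀ z, inner ℝ x.1 (ψ z) ≤ inner ℝ x.1 (ψ y) := by
    intro x
    obtain ⟨y, -, hy⟩ := isCompact_univ.exists_isMaxOn Set.univ_nonempty
      (f := fun z => inner ℝ x.1 (ψ z)) (by fun_prop)
    exact ⟨y, fun z => hy (Set.mem_univ z)⟩
  choose F hF using hmax
  let K : Set ((Sph k × Sph k) × (Y × Y)) :=
    (⋂ z, {p | inner ℝ p.1.1.1 (ψ z) ≤ inner ℝ p.1.1.1 (ψ p.2.1)}) ∩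
    ((⋂ z, {p | inner ℝ p.1.2.1 (ψ z) ≤ inner ℝ p.1.2.1 (ψ p.2.2)}) ∩
      {p | ε ≤ inner ℝ (c p.2.1).1 (c p.2.2).1})
  have hK : IsCompact K := by
    refine IsClosed.isCompact (IsClosed.inter (isClosed_iInter fun z => ?_)
      (IsClosed.inter (isClosed_iInter fun z => ?_) ?_))
    all_goals exact isClosed_le (by fun_prop) (by fun_prop)
  obtain ⟨t, ht, htK⟩ := hK.exists_forall_le' (f := fun p => inner ℝ p.1.1.1 p.1.2.1) (a := -1)
    (by fun_prop) (by
      rintro ⟨⟨x, x'⟩, y, y'⟩ ⟨h1, h2, h3⟩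
      simp only [Set.mem_iInter, Set.mem_ofPred_eq] at h1 h2 h3 ⊢
      refine lt_of_le_of_ne (sph_inner_ge x x') fun h => ?_
      have hx : x'.1 = -x.1 := by
        have h4 := norm_add_sq_real x.1 x'.1
        have a1 : ‖x.1‖ = 1 := by simp
        have a2 : ‖x'.1‖ = 1 := by simp
        rw [a1, a2, ← h] at h4
        have h5 : ‖x.1 + x'.1‖ ^ 2 = 0 := by linarith
        rw [pow_eq_zero_iff two_ne_zero, norm_eq_zero] at h5
        exact eq_neg_of_add_eq_zero_right h5
      have := H x y y' h1 (fun z => by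
        have := h2 z
        rw [hx, inner_neg_left, inner_neg_left] at this
        linarith)
      linarith)
  set t1 := min ((t - 1) / 2) 0 with ht1
  have a1 : -1 < t1 := lt_min (by linarith) (by norm_num)
  have a2 : t1 < t := (min_le_left _ _).trans_lt (by linarith)
  have a3 : t1 ≤ 0 := min_le_right _ _
  refine ⟨Real.arccos t1, Real.arccos_pos.mpr (by linarith), ?_, F, fun x x' hr => ?_⟩
  · exact lt_of_le_of_ne (Real.arccos_le_pi _) fun h => by
      rw [Real.arccos_eq_pi] at h; linarith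
  · by_contra hcon
    have hmem : ((x, x'), (F x, F x')) ∈ K := by
      refine ⟨?_, ?_, not_lt.mp hcon⟩
      · simpa only [Set.mem_iInter, Set.mem_ofPred_eq] using hF x
      · simpa only [Set.mem_iInter, Set.mem_ofPred_eq] using hF x'
    have b1 := htK _ hmem
    have b2 : Real.arccos (inner ℝ x.1 x'.1) < Real.arccos t1 :=
      Real.strictAntiOn_arccos ⟨a1.le, by linarith⟩ ⟨sph_inner_ge _ _, sph_inner_le _ _⟩
        (a2.trans_le b1)
    exact absurd hr (not_le.mpr b2)

lemma lower_one (hk : k ≤ 2 * n) : ∃ r, 0 < r ∧ r < Real.pi ∧ Hom k n r (Real.pi / 2) := by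
  classical
  obtain ⟨e⟩ : Nonempty (Option (Fin (k + 1)) ↪ Fin (n + 1) × Bool) := by
    rw [Function.Embedding.nonempty_iff_card_le]
    simp; omega
  let v : Fin (n + 1) × Bool → Sph n := fun p =>
    ⟨EuclideanSpace.single p.1 (if p.2 then 1 else -1), by
      cases p.2 <;> simp⟩
  have hv : ∀ p q, p ≠ q → inner ℝ (v p).1 (v q).1 ≤ 0 := by
    rintro ⟨a, s⟩ ⟨b, t⟩ h
    simp only [v, EuclideanSpace.inner_single_left]
    by_cases hab : a = b
    · subst hab
      have : s ≠ t := fun hst => h (by rw [hst])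
      cases s <;> cases t <;> simp_all
    · simp [hab]
  have hv1 : ∀ p, inner ℝ (v p).1 (v p).1 = 1 := by
    intro p
    rw [real_inner_self_eq_norm_sq]; simp
  let _ : TopologicalSpace (Option (Fin (k + 1))) := ⊥
  have : DiscreteTopology (Option (Fin (k + 1))) := ⟨rfl⟩
  let ψ : Option (Fin (k + 1)) → EuclideanSpace ℝ (Fin (k + 1)) := fun o =>
    o.elim (WithLp.toLp 2 fun _ => -1) (fun a => EuclideanSpace.single a 1)
  obtain ⟨r, hr0, hr, F, hF⟩ := lower_general (fun o => v (e o)) continuous_of_discreteTopology ψ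
    continuous_of_discreteTopology (fun x y y' hy hy' => by
      refine hv _ _ fun h => ?_
      have hyy : y = y' := e.injective h
      subst hyy
      have hc : ∀ z, inner ℝ x.1 (ψ z) = inner ℝ x.1 (ψ y) := fun z => le_antisymm (hy z) (hy' z)
      set m := inner ℝ x.1 (ψ y)
      have b1 : ∀ a, x.1 a = m := fun a => by
        have := hc (some a)
        simpa [ψ, EuclideanSpace.inner_single_right] using this
      have b2 := hc none
      simp only [ψ, Option.elim, inner_eq_sum, b1] at b2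
      simp at b2
      have b3 : m = 0 := by
        have : (0 : ℝ) ≤ k := Nat.cast_nonneg k
        have h4 : ((k : ℝ) + 2) * m = 0 := by linarith
        rcases mul_eq_zero.mp h4 with h5 | h5
        · linarith
        · exact h5
      have b4 := sph_sum_sq x
      simp [b1, b3] at b4) (ε := 1) one_pos
  refine ⟨r, hr0, hr, fun x => v (e (F x)), fun x x' hx => ?_⟩
  have h1 := hF x x' hx
  have h2 : e (F x) ≠ e (F x') := fun h => by
    rw [h, hv1] at h1; exact lt_irrefl _ h1
  have h3 := hv _ _ h2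
  rw [gdist, ← Real.arccos_zero]
  exact Real.antitone_arccos h3

/-- The polynomial with coefficient vector `X`. -/
noncomputable def poly (X : Idx n → ℝ) (v : EuclideanSpace ℝ (Fin (n + 1))) : ℝ :=
  ∑ d, X d * feat v d

noncomputable def lin (X : Idx n → ℝ) (v : EuclideanSpace ℝ (Fin (n + 1))) : ℝ :=
  ∑ a, X (Sum.inl a) * v a

noncomputable def quad (X : Idx n → ℝ) (v : EuclideanSpace ℝ (Fin (n + 1))) : ℝ :=
  ∑ z : {z : Sym2 (Fin (n + 1)) // z ≠ s(0, 0)}, X (Sum.inr z) * mono2 v z.1

lemma poly_eq (X : Idx n → ℝ) (v : EuclideanSpace ℝ (Fin (n + 1))) :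
    poly X v = lin X v + quad X v := by
  simp [poly, lin, quad, feat, Fintype.sum_sum_type]

lemma lin_comb (X : Idx n → ℝ) (u v : EuclideanSpace ℝ (Fin (n + 1))) (a b : ℝ) :
    lin X (a • u + b • v) = a * lin X u + b * lin X v := by
  simp only [lin, mul_sum, ← sum_add_distrib]
  refine sum_congr rfl fun i _ => ?_
  simp; ring

lemma quad_comb (X : Idx n → ℝ) (u v : EuclideanSpace ℝ (Fin (n + 1))) (a b : ℝ) :
    quad X (a • u + b • v) - quad X (b • u + a • v) = (a ^ 2 - b ^ 2) * (quad X u - quad X v) := by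
  simp only [quad, mul_sum, ← sum_sub_distrib]
  refine sum_congr rfl fun z _ => ?_
  obtain ⟨z, hz⟩ := z
  induction z using Sym2.ind with
  | h i j => simp [mono2]; ring

lemma quad_smul (X : Idx n → ℝ) (u : EuclideanSpace ℝ (Fin (n + 1))) (a : ℝ) :
    quad X (a • u) = a ^ 2 * quad X u := by
  simp only [quad, mul_sum]
  refine sum_congr rfl fun z _ => ?_
  obtain ⟨z, hz⟩ := z
  induction z using Sym2.ind with
  | h i j => simp [mono2]; ring

lemma poly_nonconst (X : Idx n → ℝ) (m : ℝ) (h : ∀ z : Sph n, poly X z.1 = m) : X = 0 := by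
  classical
  have hl : ∀ z : Sph n, lin X z.1 = 0 := by
    intro z
    have h1 := h z
    have h2 := h (-z)
    rw [poly_eq] at h1 h2
    have h3 := lin_comb X z.1 z.1 (-1) 0
    have h4 := quad_smul X z.1 (-1)
    simp only [coe_neg_sphere, neg_smul, one_smul, zero_smul, add_zero] at h2 h3 h4
    linarith
  have hq : ∀ z : Sph n, quad X z.1 = m := by
    intro z
    have h1 := h z
    rw [poly_eq, hl] at h1
    linarith
  have hm : m = 0 := by
    rw [← hq ⟨EuclideanSpace.single 0 1, by simp⟩]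
    refine sum_eq_zero fun z _ => ?_
    obtain ⟨z, hz⟩ := z
    induction z using Sym2.ind with
    | h i j =>
      have : ¬ (i = 0 ∧ j = 0) := fun h => hz (by rw [h.1, h.2])
      by_cases hi : i = 0
      · have hj : j ≠ 0 := fun hj => this ⟨hi, hj⟩
        simp [mono2, hj]
      · simp [mono2, hi]
  have hq0 : ∀ v, quad X v = 0 := by
    intro v
    by_cases hv : v = 0
    · have := quad_smul X v 0
      rw [hv] at this ⊢
      simpa using this
    · have h1 := hq ⟨‖v‖⁻¹ • v, by simp [norm_smul, hv]⟩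
      rw [hm, quad_smul] at h1
      simpa [hv] using h1
  funext d
  rcases d with a | ⟨z0, hz0⟩
  · have := hl ⟨EuclideanSpace.single a 1, by simp⟩
    simpa [lin, Pi.single_apply] using this
  · induction z0 using Sym2.ind with
    | h a b =>
      have h1 : quad X (EuclideanSpace.single a 1 + EuclideanSpace.single b 1) -
          quad X (EuclideanSpace.single a 1) - quad X (EuclideanSpace.single b 1) = 0 := by
        simp [hq0]
      simp only [quad, ← sum_sub_distrib, ← mul_sub] at h1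
      rw [sum_eq_single ⟨s(a, b), hz0⟩] at h1
      · rcases mul_eq_zero.mp h1 with h2 | h2
        · exact h2
        · exfalso
          by_cases hab : a = b
          · subst hab
            simp [mono2] at h2
            norm_num at h2
          · have hba : b ≠ a := fun h => hab h.symm
            simp [mono2, hab, hba] at h2
      · rintro ⟨z, hz⟩ _ hne
        induction z using Sym2.ind with
        | h i j =>
          have h2 : ¬ ((i = a ∧ j = b) ∨ (i = b ∧ j = a)) := fun h => hne (by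
            apply Subtype.ext
            simpa using h)
          apply mul_eq_zero_of_right
          simp only [mono2, Sym2.lift_mk, PiLp.add_apply, PiLp.single_apply]
          by_cases h3 : i = a <;> by_cases h4 : i = b <;> by_cases h5 : j = a <;>
            by_cases h6 : j = b <;> simp_all
      · simp

lemma poly_maxmin (X : Idx n → ℝ) (hX : X ≠ 0) (y y' : Sph n)
    (hy : ∀ z : Sph n, poly X z.1 ≤ poly X y.1) (hy' : ∀ z : Sph n, poly X y'.1 ≤ poly X z.1) :
    inner ℝ y.1 y'.1 ≤ 0 := by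
  by_contra hcon
  push Not at hcon
  set t := inner ℝ y.1 y'.1 with ht
  have hD : poly X y'.1 < poly X y.1 := by
    by_contra h
    exact hX (poly_nonconst X (poly X y.1) fun z => le_antisymm (hy z) ((not_lt.mp h).trans (hy' z)))
  have a1 : ‖y.1‖ = 1 := by simp
  have a2 : ‖y'.1‖ = 1 := by simp
  have ht1 : t < 1 := by
    refine lt_of_le_of_ne (sph_inner_le y y') fun h => ?_
    have := (inner_eq_one_iff_of_norm_eq_one a1 a2).mp h
    rw [this] at hD
    exact lt_irrefl _ hD
  set l := lin X y.1 - lin X y'.1 with hl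
  set q := quad X y.1 - quad X y'.1 with hq
  have hD' : 0 < l + q := by
    rw [poly_eq, poly_eq] at hD; linarith
  have hunit : ∀ a b : ℝ, a ^ 2 + b ^ 2 + 2 * a * b * t = 1 → ‖a • y.1 + b • y'.1‖ = 1 := by
    intro a b h
    have h1 := norm_add_sq_real (a • y.1) (b • y'.1)
    rw [norm_smul, norm_smul, a1, a2, inner_smul_left, inner_smul_right, ← ht] at h1
    simp only [Real.norm_eq_abs, mul_one, sq_abs, conj_trivial] at h1
    have h2 : ‖a • y.1 + b • y'.1‖ ^ 2 = 1 := by linarith
    have h3 := norm_nonneg (a • y.1 + b • y'.1)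
    nlinarith
  have key : ∀ a b : ℝ, a ^ 2 + b ^ 2 + 2 * a * b * t = 1 →
      (a - b) * l + (a ^ 2 - b ^ 2) * q ≤ l + q := by
    intro a b h
    have h1 := hy ⟨a • y.1 + b • y'.1, by simpa using hunit a b h⟩
    have h2 := hy' ⟨b • y.1 + a • y'.1, by simpa using hunit b a (by linarith)⟩
    simp only [poly_eq, lin_comb] at h1 h2
    have h3 := quad_comb X y.1 y'.1 a b
    simp only [hl, hq]
    nlinarith
  have key2 : ∀ μ : ℝ, 0 < μ → μ ≤ t → ∃ a : ℝ, 1 ≤ a ∧ a ^ 2 * (1 + μ ^ 2 - 2 * μ * t) = 1 ∧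
      (a * (1 + μ)) * l + (a ^ 2 * (1 - μ ^ 2)) * q ≤ l + q := by
    intro μ h0 h1
    have p1 : 0 < 1 + μ ^ 2 - 2 * μ * t := by nlinarith
    have p2 : 1 + μ ^ 2 - 2 * μ * t ≤ 1 := by nlinarith
    have p3 : (√(1 + μ ^ 2 - 2 * μ * t))⁻¹ ^ 2 * (1 + μ ^ 2 - 2 * μ * t) = 1 := by
      rw [inv_pow, Real.sq_sqrt p1.le, inv_mul_cancel₀ p1.ne']
    refine ⟨(√(1 + μ ^ 2 - 2 * μ * t))⁻¹, ?_, p3, ?_⟩
    · rw [one_le_inv₀ (Real.sqrt_pos.mpr p1)]
      exact Real.sqrt_le_one.mpr p2
    · have := key (√(1 + μ ^ 2 - 2 * μ * t))⁻¹ (-μ * (√(1 + μ ^ 2 - 2 * μ * t))⁻¹) (by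
        linarith)
      linarith
  have l0 : 0 ≤ l := by
    have := key (-1) 0 (by ring)
    linarith
  have l1 : l = 0 := by
    obtain ⟨a, ha, ha2, h⟩ := key2 t hcon le_rfl
    have e : a ^ 2 * (1 - t ^ 2) = 1 := by linarith
    rw [e] at h
    have : 1 < a * (1 + t) := by nlinarith
    nlinarith
  obtain ⟨a, ha, ha2, h⟩ := key2 (t / 2) (by linarith) (by linarith)
  rw [l1] at h hD'
  have : 1 < a ^ 2 * (1 - (t / 2) ^ 2) := by
    have : 0 < a ^ 2 * t ^ 2 := by positivity
    nlinarith
  nlinarith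

lemma lower_two (hk : 2 * k ≤ n * (n + 5)) {ε : ℝ} (hε : 0 < ε) :
    ∃ r, 0 < r ∧ r < Real.pi ∧ Hom k n r (Real.arccos ε) := by
  classical
  obtain ⟨e⟩ : Nonempty (Fin (k + 1) ↪ Idx n) := by
    rw [Function.Embedding.nonempty_iff_card_le]
    have := card_Idx n
    simp only [Fintype.card_fin]; omega
  have : Nonempty (Sph n) := (NormedSpace.sphere_nonempty.mpr zero_le_one).to_subtype
  let ψ : Sph n → EuclideanSpace ℝ (Fin (k + 1)) := fun z => WithLp.toLp 2 fun c => feat z.1 (e c)
  have hψ : Continuous ψ := by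
    refine (PiLp.continuous_toLp 2 _).comp (continuous_pi fun c => ?_)
    rcases e c with a | ⟨z, hz⟩
    · simp only [feat, Sum.elim_inl]; fun_prop
    · induction z using Sym2.ind with
      | h i j => simp only [feat, Sum.elim_inr, mono2, Sym2.lift_mk]; fun_prop
  obtain ⟨r, hr0, hr, F, hF⟩ := lower_general (fun z : Sph n => z) continuous_id ψ hψ
    (fun x y y' hy hy' => by
      let X : Idx n → ℝ := Function.extend e (fun c => x.1 c) 0
      have hX : ∀ z : Sph n, inner ℝ x.1 (ψ z) = poly X z.1 := by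
        intro z
        rw [inner_eq_sum, poly]
        symm
        rw [← sum_subset (subset_univ (univ.map e)), sum_map]
        · refine sum_congr rfl fun c _ => ?_
          simp [X, ψ, e.injective.extend_apply]
        · intro d _ hd
          have : ¬ ∃ c, e c = d := by simpa using hd
          simp [X, Function.extend_apply' _ _ _ this]
      refine poly_maxmin X (fun h0 => ?_) y y' (fun z => by simpa only [hX] using hy z)
        (fun z => by simpa only [hX] using hy' z)
      have b4 := sph_sum_sq x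
      have b1 : ∀ c, x.1 c = 0 := fun c => by
        have := congrFun h0 (e c)
        simpa [X, e.injective.extend_apply] using this
      simp [b1] at b4) hε
  exact ⟨r, hr0, hr, F, fun x x' hx => Real.antitone_arccos (hF x x' hx).le⟩

end Pool.Agent.P.MP_3a943a_co
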