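import Mathlib
import Pool.Agent.P.MP_3a943a_co.Lower

set_option autoImplicit false

namespace Pool.Agent.P.MP_3a943a_co

open Finset Filter Topology

variable {k n : ℕ} {r a : ℝ}

lemma inner_le_cos {y z : Sph n} (h0 : 0 ≤ a) (h : a ≤ gdist y z) :
    inner ℝ y.1 z.1 ≤ Real.cos a := by
  rw [← Real.cos_arccos (sph_inner_ge y z) (sph_inner_le y z)]
  exact Real.cos_le_cos_of_nonneg_of_le_pi h0 (Real.arccos_le_pi _) h

lemma le_arccos_of_cos {s : ℝ} (h0 : 0 ≤ a) (h1 : a ≤ Real.pi) (h : s ≤ Real.cos a) :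
    a ≤ Real.arccos s := by
  rw [← Real.arccos_cos h0 h1]
  exact Real.antitone_arccos h

lemma alphaStar_le_half (hk : n < k) (hr : r < Real.pi) : alphaStar k n r ≤ Real.pi / 2 := by
  refine Real.sSup_le ?_ (by positivity)
  rintro a ⟨h0, h1, f, hf⟩
  obtain ⟨ι, _, c, w, hc, hw0, hw1, hw⟩ := exists_weights k hr
  have := upper_one w hc hw0 hw1 (fun i => f (c i)) (Real.cos a)
    (fun x i j hi hj => inner_le_cos h0.le (hf _ _ (hw x i j hi hj))) hk
  rw [← Real.arccos_zero]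
  exact le_arccos_of_cos h0.le h1 this

lemma alphaStar_le_arccos (hk : n * (n + 5) < 2 * k) (hr : r < Real.pi) :
    alphaStar k n r ≤ Real.arccos (1 / ((n : ℝ) + 1)) := by
  refine Real.sSup_le ?_ (Real.arccos_nonneg _)
  rintro a ⟨h0, h1, f, hf⟩
  obtain ⟨ι, _, c, w, hc, hw0, hw1, hw⟩ := exists_weights k hr
  have := upper_two w hc hw0 hw1 (fun i => f (c i)) (Real.cos a)
    (fun x i j hi hj => inner_le_cos h0.le (hf _ _ (hw x i j hi hj))) hk (Real.cos_le_one a)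
  exact le_arccos_of_cos h0.le h1 this

lemma le_alphaStar {r' : ℝ} (h : Hom k n r a) (h0 : 0 < a) (h1 : a ≤ Real.pi) (hr : r ≤ r') :
    a ≤ alphaStar k n r' := by
  obtain ⟨f, hf⟩ := h
  exact le_csSup ⟨Real.pi, fun b hb => hb.2.1⟩ ⟨h0, h1, f, fun x x' hx => hf x x' (hr.trans hx)⟩

lemma le_two_mul_of_eq (hr : r < Real.pi) (h : alphaStar k n r = Real.pi / 2) : k ≤ 2 * n := by
  classical
  obtain ⟨ι, _, c, w, hc, hw0, hw1, hw⟩ := exists_weights k hr
  have hne : {a : ℝ | 0 < a ∧ a ≤ Real.pi ∧ Hom k n r a}.Nonempty := by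
    by_contra hcon
    rw [Set.not_nonempty_iff_eq_empty] at hcon
    rw [alphaStar, hcon, Real.sSup_empty] at h
    have := Real.pi_pos
    linarith
  let Z : ℕ → Set (ι → Sph n) := fun m =>
    {y | ∀ i j, r ≤ gdist (c i) (c j) → inner ℝ (y i).1 (y j).1 ≤ 1 / ((m : ℝ) + 1)}
  have hZc : ∀ m, IsClosed (Z m) := by
    intro m
    simp only [Z, Set.ofPred_forall]
    exact isClosed_iInter fun i => isClosed_iInter fun j => isClosed_iInter fun _ =>
      isClosed_le (by fun_prop) continuous_const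
  have hZn : ∀ m, (Z m).Nonempty := by
    intro m
    have h1 : Real.arccos (1 / ((m : ℝ) + 1)) < alphaStar k n r := by
      rw [h, Real.arccos_lt_pi_div_two]; positivity
    obtain ⟨a, ⟨h0, -, f, hf⟩, ha⟩ := exists_lt_of_lt_csSup hne h1
    refine ⟨fun i => f (c i), fun i j hij => ?_⟩
    have h2 := inner_le_cos (Real.arccos_nonneg _) (ha.le.trans (hf _ _ hij))
    rwa [Real.cos_arccos (le_trans (by norm_num) (by positivity : (0 : ℝ) ≤ _))] at h2
    rw [div_le_one (by positivity)]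
    linarith [Nat.cast_nonneg (α := ℝ) m]
  obtain ⟨y, hy⟩ := IsCompact.nonempty_iInter_of_sequence_nonempty_isCompact_isClosed Z
    (fun m y hy i j hij => (hy i j hij).trans (by
      gcongr
      linarith)) hZn (hZc 0).isCompact hZc
  refine upper_three w hc hw0 hw1 y fun x i j hi hj => ?_
  by_contra hcon
  obtain ⟨m, hm⟩ := exists_nat_one_div_lt (not_le.mp hcon)
  exact absurd (Set.mem_iInter.mp hy m i j (hw x i j hi hj)) (not_le.mpr hm)

theorem half_pi (hk : n < k) :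
    (∀ r, 0 < r → r < Real.pi → alphaStar k n r ≤ Real.pi / 2) ∧
    (k ≤ 2 * n → ∃ r₀, r₀ < Real.pi ∧
      ∀ r, r₀ ≤ r → r < Real.pi → alphaStar k n r = Real.pi / 2) ∧
    (2 * n < k → ∀ r, 0 < r → r < Real.pi → alphaStar k n r < Real.pi / 2) := by
  refine ⟨fun r _ hr => alphaStar_le_half hk hr, fun h2 => ?_, fun h2 r _ hr => ?_⟩
  · obtain ⟨r₀, -, hr₀, hH⟩ := lower_one h2
    have := Real.pi_pos
    exact ⟨r₀, hr₀, fun r h1 hr => le_antisymm (alphaStar_le_half hk hr)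
      (le_alphaStar hH (by positivity) (by linarith) h1)⟩
  · refine lt_of_le_of_ne (alphaStar_le_half hk hr) fun h => ?_
    have := le_two_mul_of_eq hr h
    omega

theorem limit_half_pi (hk : n < k) (h2 : 2 * k ≤ n * (n + 5)) :
    Tendsto (alphaStar k n) (𝓝[<] Real.pi) (𝓝 (Real.pi / 2)) := by
  refine tendsto_order.mpr ⟨fun b hb => ?_, fun b hb => ?_⟩
  · obtain ⟨ε, hε, hε1, hb'⟩ : ∃ ε : ℝ, 0 < ε ∧ ε < 1 ∧ b < Real.arccos ε := by
      have h1 : Tendsto Real.arccos (𝓝[>] 0) (𝓝 (Real.pi / 2)) := by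
        rw [← Real.arccos_zero]
        exact (Real.continuous_arccos.tendsto 0).mono_left nhdsWithin_le_nhds
      have h3 : ∀ᶠ ε : ℝ in 𝓝[>] 0, ε ∈ Set.Ioo (0 : ℝ) 1 := Ioo_mem_nhdsGT one_pos
      obtain ⟨ε, h4, h5⟩ := (h3.and (h1.eventually (lt_mem_nhds hb))).exists
      exact ⟨ε, h4.1, h4.2, h5⟩
    obtain ⟨r₀, -, hr₀, hH⟩ := lower_two h2 hε
    filter_upwards [Ico_mem_nhdsLT hr₀] with r hr
    exact hb'.trans_le (le_alphaStar hH (Real.arccos_pos.mpr hε1) (Real.arccos_le_pi _) hr.1)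
  · filter_upwards [self_mem_nhdsWithin] with r hr
    exact (alphaStar_le_half hk hr).trans_lt hb

end Pool.Agent.P.MP_3a943a_co
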